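import Pool.Agent.Helper3_ABCT.Aresu

/-!
# ABCT: ADER (partial derivatives and restriction)
-/

open MvPolynomial Topology

namespace PosGeom.H3

open PosGeom

/-- chain rule -/
theorem deriv_aeval {K : Type} [Field K] [Algebra ℂ K] {σ : Type} [Fintype σ] [DecidableEq σ]
    (D : Derivation ℂ K K) (z : σ → K) (P : MvPolynomial σ ℂ) :
    D (aeval z P) = ∑ i, aeval z (pderiv i P) * D (z i) := by
  induction P using MvPolynomial.induction_on with
  | C a => simp
  | add p q hp hq =>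
    rw [map_add, map_add, hp, hq, ← Finset.sum_add_distrib]
    refine Finset.sum_congr rfl fun i _ => ?_
    rw [map_add, map_add]
    ring
  | mul_X p j hp =>
    rw [map_mul, aeval_X, Derivation.leibniz, hp, smul_eq_mul, smul_eq_mul, Finset.mul_sum]
    have h1 : ∀ i, aeval z (pderiv i (p * X j)) * D (z i) =
        z j * (aeval z (pderiv i p) * D (z i)) + (if j = i then aeval z p * D (z i) else 0) := by
      intro i
      rw [Derivation.leibniz, smul_eq_mul, smul_eq_mul, pderiv_X, map_add, map_mul, map_mul,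
        aeval_X]
      by_cases hij : j = i
      · subst hij
        simp
        ring
      · rw [Pi.single_apply, if_neg (fun h => hij h), if_neg hij]
        simp
        ring
    rw [Finset.sum_congr rfl fun i _ => h1 i, Finset.sum_add_distrib, Finset.sum_ite_eq]
    simp
    ring

theorem dual_aeval {K : Type} [Field K] [Algebra ℂ K] {n : ℕ} {y : Fin n → K}
    {D : Fin n → Derivation ℂ K K} (h : IsDual y D) (j : Fin n) (P : MvPolynomial (Fin n) ℂ) :
    D j (aeval y P) = aeval y (pderiv j P) := by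
  rw [deriv_aeval, Finset.sum_eq_single j]
  · rw [h.1 j j, if_pos rfl, mul_one]
  · intro i _ hi
    rw [h.1 j i, if_neg (Ne.symm hi), mul_zero]
  · simp

theorem X0_split {d : ℕ} (P : MvPolynomial (Fin (d + 1)) ℂ) :
    ∃ (S : MvPolynomial (Fin (d + 1)) ℂ) (c : MvPolynomial (Fin d) ℂ),
      P = S * X 0 + rename Fin.succ c := by
  induction P using MvPolynomial.induction_on with
  | C a => exact ⟨0, C a, by simp⟩
  | add p q hp hq =>
    obtain ⟨S, c, h⟩ := hp
    obtain ⟨S', c', h'⟩ := hq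
    exact ⟨S + S', c + c', by rw [h, h', map_add]; ring⟩
  | mul_X p i hp =>
    obtain ⟨S, c, h⟩ := hp
    refine Fin.cases ?_ (fun j => ?_) i
    · exact ⟨p, 0, by simp⟩
    · exact ⟨S * X j.succ, c * X j, by rw [h, map_mul, rename_X]; ring⟩

theorem X0_dvd {d : ℕ} {K : Type} [Field K] [Algebra ℂ K] {y' : Fin d → K}
    (hy : AlgebraicIndependent ℂ y') (P : MvPolynomial (Fin (d + 1)) ℂ)
    (h : aeval (Fin.cons 0 y' : Fin (d + 1) → K) P = 0) : X 0 ∣ P := by
  obtain ⟨S, c, hP⟩ := X0_split P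
  rw [hP, map_add, map_mul, aeval_X, Fin.cons_zero, mul_zero, zero_add, aeval_rename] at h
  have h1 : (Fin.cons 0 y' : Fin (d + 1) → K) ∘ Fin.succ = y' := by
    funext j
    simp
  rw [h1] at h
  have hc : c = 0 := (algebraicIndependent_iff.1 hy) c h
  rw [hP, hc, map_zero, add_zero]
  exact Dvd.intro_left S rfl

/-- elements as quotients -/
theorem exists_quot {K : Type} [Field K] [Algebra ℂ K] {n : ℕ} {y : Fin n → K}
    (hy : IsCoord y) (g : K) : ∃ P Q : MvPolynomial (Fin n) ℂ, Q ≠ 0 ∧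
      g * aeval y Q = aeval y P := by
  have hg : g ∈ IntermediateField.adjoin ℂ (Set.range y) := by rw [hy.gen]; trivial
  obtain ⟨a, ha, b, hb, rfl⟩ := IntermediateField.mem_adjoin_iff_div.mp hg
  rw [Algebra.adjoin_range_eq_range_aeval] at ha hb
  obtain ⟨P, rfl⟩ := ha
  obtain ⟨Q, rfl⟩ := hb
  by_cases hQ : aeval y Q = 0
  · refine ⟨0, 1, one_ne_zero, ?_⟩
    simp
    exact Or.inr hQ
  · refine ⟨P, Q, fun h => hQ (by rw [h, map_zero]), ?_⟩
    exact div_mul_cancel₀ _ hQ

/-- quotients with not both terms divisible by the first variable -/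
theorem exists_quot_red {K : Type} [Field K] [Algebra ℂ K] {d : ℕ} {y : Fin (d + 1) → K}
    (hy : IsCoord y) (g : K) : ∃ P Q : MvPolynomial (Fin (d + 1)) ℂ, Q ≠ 0 ∧
      g * aeval y Q = aeval y P ∧ ¬ (X 0 ∣ P ∧ X 0 ∣ Q) := by
  classical
  obtain ⟨P0, Q0, h0, h0'⟩ := exists_quot hy g
  have hex : ∃ n : ℕ, ∃ P Q : MvPolynomial (Fin (d + 1)) ℂ, Q ≠ 0 ∧
      g * aeval y Q = aeval y P ∧ Q.totalDegree = n := ⟨_, P0, Q0, h0, h0', rfl⟩
  obtain ⟨P, Q, hQ, hg, hdeg⟩ := Nat.find_spec hex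
  refine ⟨P, Q, hQ, hg, ?_⟩
  rintro ⟨⟨P1, rfl⟩, ⟨Q1, rfl⟩⟩
  have hQ1 : Q1 ≠ 0 := right_ne_zero_of_mul hQ
  have hy0 : y 0 ≠ 0 := hy.ind.ne_zero 0
  have h1 : g * aeval y Q1 = aeval y P1 := by
    rw [map_mul, map_mul, aeval_X] at hg
    apply mul_left_cancel₀ hy0
    linear_combination hg
  have h2 : Q1.totalDegree < Nat.find hex := by
    rw [← hdeg, totalDegree_mul_of_isDomain (X_ne_zero 0) hQ1, totalDegree_X]
    omega
  exact Nat.find_min hex h2 ⟨P1, Q1, hQ1, h1, rfl⟩

variable {ι : Type} [Fintype ι]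

theorem spec_aeval {V C : PVar ι} {T : Subring (V.K × C.Frac)}
    (hT : ∀ p : V.K × C.Frac, p ∈ T ↔ V.SpecTo C.gen p.1 p.2)
    (hc : ∀ c : ℂ, V.SpecTo C.gen (algebraMap ℂ V.K c) (algebraMap ℂ C.Frac c)) {n : ℕ}
    (z : Fin n → V.K) (z' : Fin n → C.Frac) (h : ∀ j, V.SpecTo C.gen (z j) (z' j))
    (P : MvPolynomial (Fin n) ℂ) : V.SpecTo C.gen (aeval z P) (aeval z' P) := by
  have key : ((aeval z P, aeval z' P) : V.K × C.Frac) ∈ T := by
    induction P using MvPolynomial.induction_on with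
    | C a =>
      rw [aeval_C, aeval_C]
      exact (hT (algebraMap ℂ V.K a, algebraMap ℂ C.Frac a)).2 (hc a)
    | add p q hp hq =>
      rw [map_add, map_add]
      exact T.add_mem hp hq
    | mul_X p j hp =>
      rw [map_mul, map_mul, aeval_X, aeval_X]
      exact T.mul_mem hp ((hT (z j, z' j)).2 (h j))
  exact (hT _).1 key

theorem ader (hS : SpecStmt) (hG : SgenStmt) : AderStmt := by
  intro ι _ d V C y y' hA D D' hD hD' g a hga
  obtain ⟨T, hT⟩ := exists_spec_subring hS hG V C hA.sub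
  have hI1 : ∀ F ∈ V.I, aeval C.gen F = 0 := fun F hF => ((hG ι C).1 F).2 (hA.sub hF)
  have hI2 : ∃ i, C.gen i ≠ 0 := by
    obtain ⟨i, hi⟩ := C.rel
    refine ⟨i, fun h0 => hi (((hG ι C).1 (X i)).1 ?_)⟩
    rw [aeval_X]
    exact h0
  obtain ⟨huniq, hc, hadd, hmul, hneg, hinv, _, hmem⟩ := hS ι V C.Frac C.gen hI1 hI2
  -- coordinates on the divisor
  set Y' : Fin (d + 1) → C.K := Fin.cons 0 y' with hY'
  have hspecy : ∀ j, V.SpecTo C.gen (y j) (algebraMap C.K C.Frac (Y' j)) := by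
    intro j
    refine Fin.cases ?_ (fun j' => ?_) j
    · rw [hY', Fin.cons_zero, map_zero]
      exact hA.z
    · rw [hY', Fin.cons_succ]
      exact hA.s j'
  have hspecP : ∀ P : MvPolynomial (Fin (d + 1)) ℂ,
      V.SpecTo C.gen (aeval y P) (algebraMap C.K C.Frac (aeval Y' P)) := by
    intro P
    have h1 := spec_aeval hT hc y (fun j => algebraMap C.K C.Frac (Y' j)) hspecy P
    have h2 : aeval (fun j => algebraMap C.K C.Frac (Y' j)) P =
        algebraMap C.K C.Frac (aeval Y' P) := aeval_algebraMap_apply C.Frac Y' P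
    rwa [h2] at h1
  obtain ⟨P, Q, hQ0, hgQ, hdvd⟩ := exists_quot_red hA.cV g
  have hinj : Function.Injective (algebraMap C.K C.Frac) := (algebraMap C.K C.Frac).injective
  -- `a Q(0, y') = P(0, y')`
  have haQ : a * aeval Y' Q = aeval Y' P := by
    apply hinj
    rw [map_mul]
    have h1 := hmul _ _ _ _ hga (hspecP Q)
    rw [hgQ] at h1
    exact huniq _ _ _ h1 (hspecP P)
  have hQY : aeval Y' Q ≠ 0 := by
    intro h0
    have h1 : aeval Y' P = 0 := by rw [← haQ, h0, mul_zero]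
    exact hdvd ⟨X0_dvd hA.cC.ind P h1, X0_dvd hA.cC.ind Q h0⟩
  have hQy : aeval y Q ≠ 0 := by
    intro h0
    exact hQ0 ((algebraicIndependent_iff.1 hA.cV.ind) Q h0)
  have hQinv : V.SpecTo C.gen (aeval y Q)⁻¹ (algebraMap C.K C.Frac (aeval Y' Q))⁻¹ := by
    refine hinv _ _ (hspecP Q) ?_
    intro h0
    exact hQY (hinj (by rw [h0, map_zero]))
  -- the derivative
  have hDg : ∀ j, V.SpecTo C.gen (D j g) (algebraMap C.K C.Frac
      ((aeval Y' (pderiv j P) - a * aeval Y' (pderiv j Q)) * (aeval Y' Q)⁻¹)) := by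
    intro j
    have h1 : D j g = (aeval y (pderiv j P) + -(g * aeval y (pderiv j Q))) * (aeval y Q)⁻¹ := by
      have h2 : D j (g * aeval y Q) = D j (aeval y P) := by rw [hgQ]
      rw [Derivation.leibniz, smul_eq_mul, smul_eq_mul, dual_aeval hD, dual_aeval hD] at h2
      field_simp
      linear_combination h2
    rw [h1, sub_eq_add_neg, map_mul, map_add, map_neg, map_mul, map_inv₀]
    exact hmul _ _ _ _ (hadd _ _ _ _ (hspecP _) (hneg _ _ (hmul _ _ _ _ hga (hspecP _)))) hQinv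
  refine ⟨⟨(aeval Y' (pderiv 0 P) - a * aeval Y' (pderiv 0 Q)) * (aeval Y' Q)⁻¹, hDg 0⟩,
    fun j => ?_⟩
  have h1 := hDg j.succ
  have h2 : (aeval Y' (pderiv j.succ P) - a * aeval Y' (pderiv j.succ Q)) * (aeval Y' Q)⁻¹ =
      D' j a := by
    have hchain : ∀ R : MvPolynomial (Fin (d + 1)) ℂ, D' j (aeval Y' R) =
        aeval Y' (pderiv j.succ R) := by
      intro R
      rw [deriv_aeval, Finset.sum_eq_single j.succ]
      · rw [hY', Fin.cons_succ, hD'.1 j j, if_pos rfl, mul_one]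
      · intro i _ hi
        refine Fin.cases (motive := fun i => i ≠ j.succ →
          aeval Y' (pderiv i R) * D' j (Y' i) = 0) ?_ (fun i' hi' => ?_) i hi
        · intro _
          rw [hY', Fin.cons_zero, map_zero, mul_zero]
        · have : j ≠ i' := fun h => hi' (by rw [h])
          rw [hY', Fin.cons_succ, hD'.1 j i', if_neg this, mul_zero]
      · simp
    have h3 : D' j (a * aeval Y' Q) = D' j (aeval Y' P) := by rw [haQ]
    rw [Derivation.leibniz, smul_eq_mul, smul_eq_mul, hchain, hchain] at h3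
    field_simp
    linear_combination (-1 : C.K) * h3
  rw [h2] at h1
  exact h1

end PosGeom.H3
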