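import Pool.Agent.Helper93_ABCT.StmtI

/-!
# ABCT: ARESU (uniqueness of residues)
-/

open MvPolynomial Topology

namespace PosGeom.H3

open PosGeom

variable {ι : Type} [Fintype ι]

/-- the pairs `(f, a)` such that `f` specializes to `a`, as a subring -/
theorem exists_spec_subring (hS : SpecStmt) (hG : SgenStmt) (V C : PVar ι) (h : V.I ≤ C.I) :
    ∃ T : Subring (V.K × C.Frac), ∀ p : V.K × C.Frac, p ∈ T ↔ V.SpecTo C.gen p.1 p.2 := by
  have h1 : ∀ F ∈ V.I, aeval C.gen F = 0 := fun F hF => ((hG ι C).1 F).2 (h hF)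
  have h2 : ∃ i, C.gen i ≠ 0 := by
    obtain ⟨i, hi⟩ := C.rel
    refine ⟨i, fun h0 => hi (((hG ι C).1 (X i)).1 ?_)⟩
    rw [aeval_X]
    exact h0
  obtain ⟨_, hc, ha, hm, hn, _, _, _⟩ := hS ι V C.Frac C.gen h1 h2
  refine ⟨{ carrier := {p | V.SpecTo C.gen p.1 p.2}
            mul_mem' := ?_
            one_mem' := ?_
            add_mem' := ?_
            zero_mem' := ?_
            neg_mem' := ?_ }, fun p => Iff.rfl⟩
  · intro p q hp hq
    exact hm _ _ _ _ hp hq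
  · have := hc 1
    rw [map_one, map_one] at this
    exact this
  · intro p q hp hq
    exact ha _ _ _ _ hp hq
  · have := hc 0
    rw [map_zero, map_zero] at this
    exact this
  · intro p hp
    exact hn _ _ hp

theorem spec_det {V C : PVar ι} {T : Subring (V.K × C.Frac)}
    (hT : ∀ p : V.K × C.Frac, p ∈ T ↔ V.SpecTo C.gen p.1 p.2) {n : ℕ}
    (M : Matrix (Fin n) (Fin n) V.K) (M' : Matrix (Fin n) (Fin n) C.Frac)
    (h : ∀ i j, V.SpecTo C.gen (M i j) (M' i j)) : V.SpecTo C.gen M.det M'.det := by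
  let N : Matrix (Fin n) (Fin n) T := Matrix.of fun i j => ⟨(M i j, M' i j), (hT _).2 (h i j)⟩
  have h1 : M.det = ((N.det : T) : V.K × C.Frac).1 := by
    have := RingHom.map_det ((RingHom.fst V.K C.Frac).comp T.subtype) N
    rw [RingHom.mapMatrix_apply] at this
    exact this.symm
  have h2 : M'.det = ((N.det : T) : V.K × C.Frac).2 := by
    have := RingHom.map_det ((RingHom.snd V.K C.Frac).comp T.subtype) N
    rw [RingHom.mapMatrix_apply] at this
    exact this.symm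
  rw [h1, h2]
  exact (hT _).1 N.det.2

theorem spec_sum {V C : PVar ι} {T : Subring (V.K × C.Frac)}
    (hT : ∀ p : V.K × C.Frac, p ∈ T ↔ V.SpecTo C.gen p.1 p.2) {α : Type} (s : Finset α)
    (f : α → V.K) (a : α → C.Frac) (h : ∀ i ∈ s, V.SpecTo C.gen (f i) (a i)) :
    V.SpecTo C.gen (∑ i ∈ s, f i) (∑ i ∈ s, a i) := by
  have h1 : ((∑ i ∈ s, f i, ∑ i ∈ s, a i) : V.K × C.Frac) = ∑ i ∈ s, ((f i, a i) : V.K × C.Frac) := by
    rw [Prod.ext_iff]
    simp [Prod.fst_sum, Prod.snd_sum]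
  have h2 : ((∑ i ∈ s, f i, ∑ i ∈ s, a i) : V.K × C.Frac) ∈ T := by
    rw [h1]
    exact T.sum_mem fun i hi => (hT _).2 (h i hi)
  exact (hT _).1 h2

theorem spec_prod {V C : PVar ι} {T : Subring (V.K × C.Frac)}
    (hT : ∀ p : V.K × C.Frac, p ∈ T ↔ V.SpecTo C.gen p.1 p.2) {α : Type} (s : Finset α)
    (f : α → V.K) (a : α → C.Frac) (h : ∀ i ∈ s, V.SpecTo C.gen (f i) (a i)) :
    V.SpecTo C.gen (∏ i ∈ s, f i) (∏ i ∈ s, a i) := by
  have h1 : ((∏ i ∈ s, f i, ∏ i ∈ s, a i) : V.K × C.Frac) = ∏ i ∈ s, ((f i, a i) : V.K × C.Frac) := by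
    rw [Prod.ext_iff]
    simp [Prod.fst_prod, Prod.snd_prod]
  have h2 : ((∏ i ∈ s, f i, ∏ i ∈ s, a i) : V.K × C.Frac) ∈ T := by
    rw [h1]
    exact T.prod_mem fun i hi => (hT _).2 (h i hi)
  exact (hT _).1 h2

theorem dW_eq {K : Type} [Field K] [Algebra ℂ K] {d : ℕ} (y : Fin d → K) (hy : ∀ j, y j ≠ 0) :
    dW y = (∏ j, y j) • dL y := by
  unfold dL
  rw [smul_smul, mul_inv_cancel₀ (Finset.prod_ne_zero_iff.2 fun j _ => hy j), one_smul]

theorem coord_ne_zero {K : Type} [Field K] [Algebra ℂ K] {d : ℕ} {y : Fin d → K} (h : IsCoord y)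
    (j : Fin d) : y j ≠ 0 := h.ind.ne_zero j

theorem aresu (hF : FderStmt) (hO : FoneStmt) (hS : SpecStmt) (hG : SgenStmt) (hV : AdvrStmt)
    (hD : AderStmt) : AresuStmt := by
  intro ι _ d V C y y' hA ω ρ hres
  obtain ⟨τ, ⟨hτ0, hτ1, hτ2⟩, m, f, g, f', g', hf, hg, hω, hρ⟩ := hres
  obtain ⟨T, hT⟩ := exists_spec_subring hS hG V C hA.sub
  obtain ⟨D, hDy⟩ := hF V.K (d + 1) y hA.cV
  obtain ⟨D', hDy'⟩ := hF C.K d y' hA.cC
  obtain ⟨_, hfo, hdet⟩ := hO V.K (d + 1) y D hDy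
  obtain ⟨_, hfo', hdet'⟩ := hO C.K d y' D' hDy'
  have hy0 : ∀ j, y j ≠ 0 := coord_ne_zero hA.cV
  have hy0' : ∀ j, y' j ≠ 0 := coord_ne_zero hA.cC
  have hI1 : ∀ F ∈ V.I, aeval C.gen F = 0 := fun F hF => ((hG ι C).1 F).2 (hA.sub hF)
  have hI2 : ∃ i, C.gen i ≠ 0 := by
    obtain ⟨i, hi⟩ := C.rel
    refine ⟨i, fun h0 => hi (((hG ι C).1 (X i)).1 ?_)⟩
    rw [aeval_X]
    exact h0
  obtain ⟨huniq, hc, hadd, hmul, hneg, hinv, _, hmem⟩ := hS ι V C.Frac C.gen hI1 hI2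
  -- the uniformizers
  obtain ⟨O, _, _, _, hunif, _⟩ := hV ι d V C y y' hA
  obtain ⟨ε, aε, hε, hτε⟩ := hunif τ hτ1
  obtain ⟨ε', aε', hε', hyε'⟩ := hτ2 (y 0) hA.z
  have hεε' : ε * ε' = 1 := by
    have h1 : y 0 = (ε * ε') * y 0 := by
      calc y 0 = ε' * τ := hyε'
        _ = ε' * (ε * y 0) := by rw [← hτε]
        _ = (ε * ε') * y 0 := by ring
    exact (mul_eq_right₀ (hy0 0)).1 h1.symm
  have haε : aε * aε' = 1 := by
    have h1 := hmul _ _ _ _ hε hε'
    rw [hεε'] at h1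
    have h2 := hc 1
    rw [map_one, map_one] at h2
    exact huniq _ _ _ h1 h2
  have haε0 : aε ≠ 0 := left_ne_zero_of_mul_eq_one haε
  have hε0 : ε ≠ 0 := left_ne_zero_of_mul_eq_one hεε'
  -- the value of ε in `C.K`
  have haεK : aε ∈ C.K := hmem _ _ hε
  obtain ⟨⟨b0, hb0⟩, hbs⟩ := hD ι d V C y y' hA D D' hDy hDy' ε ⟨aε, haεK⟩ hε
  -- derivatives of τ
  have hτD0 : V.SpecTo C.gen (D 0 τ) aε := by
    have h1 : D 0 τ = ε + y 0 * D 0 ε := by
      rw [hτε, Derivation.leibniz, hDy.1 0 0, if_pos rfl, smul_eq_mul, smul_eq_mul, mul_one]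
    rw [h1]
    have h2 := hadd _ _ _ _ hε (hmul _ _ _ _ hA.z hb0)
    rwa [zero_mul, add_zero] at h2
  have hτDs : ∀ j : Fin d, V.SpecTo C.gen (D j.succ τ) 0 := by
    intro j
    have h1 : D j.succ τ = y 0 * D j.succ ε := by
      rw [hτε, Derivation.leibniz, hDy.1 j.succ 0, if_neg (Fin.succ_ne_zero j), smul_eq_mul,
        smul_eq_mul, mul_zero, zero_add]
    rw [h1]
    have h2 := hmul _ _ _ _ hA.z (hbs j)
    rwa [zero_mul] at h2
  -- the determinants
  have hdetk : ∀ k, V.SpecTo C.gen (dW (Fin.cons τ (g k) : Fin (d + 1) → V.K) D)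
      (aε * ((dW (g' k) D' : C.K) : C.Frac)) := by
    intro k
    rw [hdet, hdet']
    have hG0 : ∀ i : Fin d, ∃ b : C.K, V.SpecTo C.gen (D 0 (g k i)) (b : C.Frac) := fun i =>
      (hD ι d V C y y' hA D D' hDy hDy' (g k i) (g' k i) (hg k i)).1
    choose b hb using hG0
    let M' : Matrix (Fin (d + 1)) (Fin (d + 1)) C.Frac :=
      Matrix.of fun i j => Fin.cases (Fin.cases aε (fun _ => 0) i)
        (fun j' => Fin.cases ((b j' : C.K) : C.Frac) (fun i' => ((D' i' (g' k j') : C.K) : C.Frac)) i) j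
    have hM' : M'.det = aε * (((Matrix.of fun i j => D' i (g' k j)).det : C.K) : C.Frac) := by
      rw [Matrix.det_succ_column_zero, Fin.sum_univ_succ]
      have hz : ∀ i : Fin d, M' i.succ 0 = 0 := fun i => rfl
      have h00 : M' 0 0 = aε := rfl
      rw [Finset.sum_eq_zero (fun i _ => by rw [hz i, mul_zero, zero_mul]), add_zero, h00]
      have hsub : (M'.submatrix (Fin.succAbove 0) Fin.succ) =
          (Matrix.of fun i j => D' i (g' k j)).map (algebraMap C.K C.Frac) := by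
        ext i j
        simp only [Matrix.submatrix_apply, Fin.zero_succAbove, Matrix.map_apply, Matrix.of_apply]
        rfl
      rw [hsub]
      have := RingHom.map_det (algebraMap C.K C.Frac) (Matrix.of fun i j => D' i (g' k j))
      rw [RingHom.mapMatrix_apply] at this
      rw [← this]
      simp
    rw [← hM']
    apply spec_det hT
    intro i j
    rw [Matrix.of_apply]
    refine Fin.cases ?_ (fun j' => ?_) j
    · rw [Fin.cons_zero]
      refine Fin.cases ?_ (fun i' => ?_) i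
      · exact hτD0
      · exact hτDs i'
    · rw [Fin.cons_succ]
      refine Fin.cases ?_ (fun i' => ?_) i
      · exact hb j'
      · exact (hD ι d V C y y' hA D D' hDy hDy' (g k j') (g' k j') (hg k j')).2 i'
  -- the coefficient
  have hyprod : ∏ j, y j = y 0 * ∏ j : Fin d, y j.succ := Fin.prod_univ_succ _
  have hterm : ∀ k, f k * τ⁻¹ * (dW (Fin.cons τ (g k) : Fin (d + 1) → V.K) D) * ∏ j, y j =
      f k * ε⁻¹ * (dW (Fin.cons τ (g k) : Fin (d + 1) → V.K) D) * ∏ j : Fin d, y j.succ := by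
    intro k
    have h1 : τ⁻¹ * y 0 = ε⁻¹ := by
      rw [hτε, mul_inv, mul_assoc, inv_mul_cancel₀ (hy0 0), mul_one]
    rw [hyprod]
    calc _ = f k * (τ⁻¹ * y 0) * (dW (Fin.cons τ (g k) : Fin (d + 1) → V.K) D) *
          ∏ j : Fin d, y j.succ := by ring
      _ = _ := by rw [h1]
  refine ⟨∑ k, f k * τ⁻¹ * (dW (Fin.cons τ (g k) : Fin (d + 1) → V.K) D) * ∏ j, y j,
    ∑ k, f' k * (dW (g' k) D') * ∏ j, y' j, ?_, ?_, ?_⟩
  · rw [hω, Finset.sum_smul]
    refine Finset.sum_congr rfl fun k _ => ?_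
    conv_lhs => rw [hfo (dW (Fin.cons τ (g k) : Fin (d + 1) → V.K)), dW_eq y hy0]
    rw [smul_smul, smul_smul, mul_assoc]
  · rw [Finset.sum_congr rfl fun k _ => hterm k]
    have hcoe : ((∑ k, f' k * (dW (g' k) D') * ∏ j, y' j : C.K) : C.Frac) =
        ∑ k, ((f' k : C.K) : C.Frac) * aε⁻¹ * (aε * ((dW (g' k) D' : C.K) : C.Frac)) *
          ∏ j, ((y' j : C.K) : C.Frac) := by
      have h1 : ((∑ k, f' k * (dW (g' k) D') * ∏ j, y' j : C.K) : C.Frac) =
          algebraMap C.K C.Frac (∑ k, f' k * (dW (g' k) D') * ∏ j, y' j) := rfl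
      rw [h1, map_sum]
      refine Finset.sum_congr rfl fun k _ => ?_
      rw [map_mul, map_mul, map_prod]
      have h2 : ∀ x : C.K, algebraMap C.K C.Frac x = (x : C.Frac) := fun _ => rfl
      simp only [h2]
      field_simp
    rw [hcoe]
    refine spec_sum hT _ _ _ fun k _ => ?_
    refine hmul _ _ _ _ (hmul _ _ _ _ (hmul _ _ _ _ (hf k) (hinv _ _ hε haε0)) (hdetk k)) ?_
    exact spec_prod hT _ _ _ fun j _ => hA.s j
  · rw [hρ, Finset.sum_smul]
    refine Finset.sum_congr rfl fun k _ => ?_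
    conv_lhs => rw [hfo' (dW (g' k)), dW_eq y' hy0']
    rw [smul_smul, smul_smul, mul_assoc]

end PosGeom.H3
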