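import Pool.Agent.Helper93_ABCT.StmtK
import Pool.Agent.Helper32_ABCT.Api2

/-!
# ABCT: KPOS (subtraction-free elements of monomial subfields)
-/

open MvPolynomial

namespace PosGeom.H3

open ABCT ABCT.FlatCell

section

variable {V : Type} {n : ℕ} (b : Fin n → (V →₀ ℤ))

/-- weights: exponents modulo the lattice -/
noncomputable def wt (v : V) : (V →₀ ℤ) ⧸ AddSubgroup.closure (Set.range b) :=
  QuotientAddGroup.mk (Finsupp.single v 1)

theorem zexp_add' (f g : V →₀ ℕ) : zexp (f + g) = zexp f + zexp g := by ext; simp [zexp]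

theorem weight_wt (μ : V →₀ ℕ) : Finsupp.weight (wt b) μ = QuotientAddGroup.mk (zexp μ) := by
  classical
  induction μ using Finsupp.induction_linear with
  | zero =>
    rw [map_zero]
    have : (zexp (0 : V →₀ ℕ)) = 0 := by ext; simp [zexp]
    rw [this]
    rfl
  | add f g hf hg =>
    rw [map_add, hf, hg, zexp_add']
    rfl
  | single v k =>
    have h1 : zexp (Finsupp.single v k) = k • (Finsupp.single v (1 : ℤ)) := by
      ext w
      simp [zexp, Finsupp.single_apply]
    rw [Finsupp.weight_single, h1]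
    rfl

theorem comp_mul_left {R : Type*} [CommRing R] {M : Type*} [AddCommGroup M] (w : V → M) {a c : M}
    {P D : MvPolynomial V R} (hP : IsWeightedHomogeneous w P a) :
    weightedHomogeneousComponent w (a + c) (P * D) = P * weightedHomogeneousComponent w c D := by
  classical
  let _ := weightedGradedAlgebra R w
  have h1 := DirectSum.coe_decompose_mul_add_of_left_mem (weightedHomogeneousSubmodule R w)
    (i := a) (j := c) (b := D) hP
  rw [← weightedDecomposition.decompose'_apply, ← weightedDecomposition.decompose'_apply]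
  exact h1

theorem comp_map {M : Type*} [AddCommGroup M] (w : V → M) (c : M) (D : MvPolynomial V ℕ) :
    weightedHomogeneousComponent w c (map (Nat.castRingHom ℂ) D) =
      map (Nat.castRingHom ℂ) (weightedHomogeneousComponent w c D) := by
  classical
  ext d
  rw [coeff_weightedHomogeneousComponent, coeff_map, coeff_map, coeff_weightedHomogeneousComponent]
  split_ifs
  · rfl
  · rw [map_zero]

theorem alg_monomial (μ : V →₀ ℕ) (a : ℂ) : algebraMap (MvPolynomial V ℂ) (Fr V) (monomial μ a) =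
    algebraMap ℂ (Fr V) a * lmono xx (zexp μ) := by
  rw [monomial_eq, map_mul, lmono_zexp, Finsupp.prod, Finsupp.prod, map_prod]
  congr 1
  exact Finset.prod_congr rfl fun v _ => by rw [map_pow]; rfl

theorem alg_map (N : MvPolynomial V ℕ) :
    algebraMap (MvPolynomial V ℂ) (Fr V) (map (Nat.castRingHom ℂ) N) =
      eval₂ (Nat.castRingHom (Fr V)) xx N := by
  rw [← eval₂_eta (map (Nat.castRingHom ℂ) N), eval₂_map, hom_eval₂]
  congr 1
  exact Subsingleton.elim _ _

theorem lmono_zsmul {K : Type*} [Field K] (y : V → K) (t : ℤ) (m : V →₀ ℤ) :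
    lmono y (t • m) = lmono y m ^ t := by
  rw [lmono_eq_prod y (t • m) m.support (Finsupp.support_smul), lmono_eq_prod y m m.support
    (Finset.Subset.refl _), ← Finset.prod_zpow]
  refine Finset.prod_congr rfl fun v _ => ?_
  rw [← zpow_mul, Finsupp.smul_apply, smul_eq_mul, mul_comm]

theorem lmono_sum {K : Type*} [Field K] (y : V → K) (hy : ∀ v, y v ≠ 0) {κ : Type*} (s : Finset κ)
    (m : κ → V →₀ ℤ) : lmono y (∑ j ∈ s, m j) = ∏ j ∈ s, lmono y (m j) := by
  classical
  induction s using Finset.induction_on with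
  | empty => rw [Finset.sum_empty, Finset.prod_empty, lmono_zero]
  | insert a s ha ih => rw [Finset.sum_insert ha, Finset.prod_insert ha, lmono_add y hy, ih]

theorem mk_b (j : Fin n) :
    (QuotientAddGroup.mk (b j) : (V →₀ ℤ) ⧸ AddSubgroup.closure (Set.range b)) = 0 :=
  (QuotientAddGroup.eq_zero_iff _).mpr (AddSubgroup.subset_closure ⟨j, rfl⟩)

theorem poly_shift (p : MvPolynomial (Fin n) ℂ) : ∃ μ : V →₀ ℕ, ∀ μ', μ ≤ μ' →
    ∃ P' : MvPolynomial V ℂ, IsWeightedHomogeneous (wt b) P' (QuotientAddGroup.mk (zexp μ')) ∧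
      algebraMap _ (Fr V) P' = lmono xx (zexp μ') * aeval (fun j => lmono xx (b j)) p := by
  classical
  induction p using MvPolynomial.induction_on with
  | C a =>
    refine ⟨0, fun μ' _ => ⟨monomial μ' a, ?_, ?_⟩⟩
    · exact isWeightedHomogeneous_monomial _ _ _ (weight_wt b μ')
    · rw [alg_monomial, aeval_C, mul_comm]
  | add p q hp hq =>
    obtain ⟨μ1, h1⟩ := hp
    obtain ⟨μ2, h2⟩ := hq
    refine ⟨μ1 + μ2, fun μ' h => ?_⟩
    obtain ⟨P1, hP1, e1⟩ := h1 μ' (le_trans (le_add_of_nonneg_right zero_le) h)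
    obtain ⟨P2, hP2, e2⟩ := h2 μ' (le_trans (le_add_of_nonneg_left zero_le) h)
    refine ⟨P1 + P2, hP1.add hP2, ?_⟩
    rw [map_add, map_add, e1, e2]
    ring
  | mul_X p j hp =>
    obtain ⟨μ1, h1⟩ := hp
    let μj : V →₀ ℕ := (b j).mapRange (fun k => (-k).toNat) (by simp)
    let νj : V →₀ ℕ := (b j).mapRange (fun k => k.toNat) (by simp)
    have hν : zexp νj = zexp μj + b j := by
      ext v
      simp only [zexp, Finsupp.add_apply, Finsupp.mapRange_apply, νj, μj]
      omega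
    refine ⟨μ1 + μj, fun μ' h => ?_⟩
    have hle : μj ≤ μ' := le_trans (le_add_of_nonneg_left zero_le) h
    have hle1 : μ1 ≤ μ' - μj := le_tsub_of_add_le_right h
    have hμ : μ' - μj + μj = μ' := tsub_add_cancel_of_le hle
    obtain ⟨P1, hP1, e1⟩ := h1 (μ' - μj) hle1
    have hzμ : zexp μ' = zexp (μ' - μj) + zexp μj := by rw [← zexp_add', hμ]
    refine ⟨P1 * monomial νj 1, ?_, ?_⟩
    · have h2 := hP1.mul (isWeightedHomogeneous_monomial (wt b) νj (1 : ℂ) (weight_wt b νj))
      have h3 : (QuotientAddGroup.mk (zexp (μ' - μj)) + QuotientAddGroup.mk (zexp νj) :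
          (V →₀ ℤ) ⧸ AddSubgroup.closure (Set.range b)) = QuotientAddGroup.mk (zexp μ') := by
        rw [hν, QuotientAddGroup.mk_add, mk_b, add_zero, hzμ, QuotientAddGroup.mk_add]
      rw [h3] at h2
      exact h2
    · rw [map_mul, e1, alg_monomial, map_one, one_mul, hν, hzμ, lmono_add _ xx_ne_zero,
        lmono_add _ xx_ne_zero, map_mul, aeval_X]
      ring

theorem mem_closure_b (m : V →₀ ℤ) (h : m ∈ AddSubgroup.closure (Set.range b)) :
    ∃ t : Fin n → ℤ, m = ∑ j, t j • b j := by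
  have h1 : m ∈ Submodule.span ℤ (Set.range b) := by
    rw [← Submodule.mem_toAddSubgroup, Submodule.span_int_eq_addSubgroupClosure]
    exact h
  obtain ⟨t, ht⟩ := (Submodule.mem_span_range_iff_exists_fun ℤ).mp h1
  exact ⟨t, ht.symm⟩

theorem nat_shift (R : MvPolynomial V ℕ) (μ₀ : V →₀ ℕ)
    (hR : IsWeightedHomogeneous (wt b) R (QuotientAddGroup.mk (zexp μ₀))) :
    ∃ k : Fin n → ℕ, ∀ k', k ≤ k' → ∃ A : MvPolynomial (Fin n) ℕ,
      eval₂ (Nat.castRingHom (Fr V)) xx R * ∏ j, lmono xx (b j) ^ k' j =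
        lmono xx (zexp μ₀) * evN (fun j => lmono xx (b j)) A := by
  classical
  have h1 : ∀ μ : V →₀ ℕ, ∃ t : Fin n → ℤ, μ ∈ R.support → zexp μ - zexp μ₀ = ∑ j, t j • b j := by
    intro μ
    by_cases hμ : μ ∈ R.support
    · have h2 := hR (mem_support_iff.mp hμ)
      rw [weight_wt] at h2
      have h3 : zexp μ - zexp μ₀ ∈ AddSubgroup.closure (Set.range b) := by
        have := (QuotientAddGroup.eq (s := AddSubgroup.closure (Set.range b))).mp h2
        have h4 := neg_mem this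
        rw [neg_add, neg_neg] at h4
        rw [sub_eq_add_neg]
        exact h4
      obtain ⟨t, ht⟩ := mem_closure_b b _ h3
      exact ⟨t, fun _ => ht⟩
    · exact ⟨0, fun h => absurd h hμ⟩
  choose t ht using h1
  refine ⟨fun j => ∑ μ ∈ R.support, (t μ j).natAbs, fun k' hk' => ?_⟩
  refine ⟨∑ μ ∈ R.support, monomial (Finsupp.equivFunOnFinite.symm fun j => (t μ j + k' j).toNat)
    (coeff μ R), ?_⟩
  rw [evN, ← coe_eval₂Hom, ← coe_eval₂Hom, map_sum, Finset.mul_sum]
  conv_lhs => rw [R.as_sum, map_sum, Finset.sum_mul]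
  refine Finset.sum_congr rfl fun μ hμ => ?_
  rw [coe_eval₂Hom, coe_eval₂Hom, eval₂_monomial, eval₂_monomial, ← lmono_zexp]
  have h2 : zexp μ = zexp μ₀ + ∑ j, t μ j • b j := by rw [← ht μ hμ]; abel
  have h3 : lmono (xx : V → Fr V) (zexp μ) = lmono xx (zexp μ₀) * ∏ j, lmono xx (b j) ^ t μ j := by
    rw [h2, lmono_add _ xx_ne_zero, lmono_sum _ xx_ne_zero]
    congr 1
    exact Finset.prod_congr rfl fun j _ => lmono_zsmul _ _ _
  rw [h3, Finsupp.prod_fintype _ _ (fun _ => pow_zero _)]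
  have h4 : (∏ j, lmono (xx : V → Fr V) (b j) ^ t μ j) * ∏ j, lmono xx (b j) ^ k' j =
      ∏ j, lmono xx (b j) ^ (Finsupp.equivFunOnFinite.symm
        (fun j => (t μ j + k' j).toNat) : Fin n →₀ ℕ) j := by
    rw [← Finset.prod_mul_distrib]
    refine Finset.prod_congr rfl fun j _ => ?_
    rw [Finsupp.equivFunOnFinite_symm_apply_apply, ← zpow_natCast, ← zpow_natCast,
      ← zpow_add₀ (lmono_ne_zero _ xx_ne_zero _)]
    congr 1
    have h5 : (t μ j).natAbs ≤ k' j := le_trans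
      (Finset.single_le_sum (f := fun μ => (t μ j).natAbs) (fun _ _ => Nat.zero_le _) hμ) (hk' j)
    omega
  rw [← h4]
  ring

end

theorem kpos : KposStmt := by
  classical
  intro S n b _ f hf hfb
  have hf0 : f ≠ 0 := ABCT.PosF.ne_zero hf
  obtain ⟨N, D, hN, hD, hfe⟩ := hf
  obtain ⟨p, q, hpq⟩ := (IntermediateField.mem_adjoin_range_iff ℂ _ _).mp hfb
  have hxx : S.x = xx := rfl
  rw [hxx] at hfe
  have hz : (fun j => S.mono (b j)) = fun j => lmono xx (b j) := rfl
  rw [hz] at hpq ⊢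
  have hq0 : aeval (fun j => lmono (xx : S.V → Fr S.V) (b j)) q ≠ 0 := by
    intro h
    rw [h, div_zero] at hpq
    exact hf0 hpq
  have hpq' : f * aeval (fun j => lmono xx (b j)) q = aeval (fun j => lmono xx (b j)) p := by
    rw [hpq, div_mul_cancel₀ _ hq0]
  obtain ⟨μ1, h1⟩ := poly_shift b p
  obtain ⟨μ2, h2⟩ := poly_shift b q
  obtain ⟨P', hP', eP⟩ := h1 (μ1 + μ2) (le_add_of_nonneg_right zero_le)
  obtain ⟨Q', hQ', eQ⟩ := h2 (μ1 + μ2) (le_add_of_nonneg_left zero_le)
  have hDev : eval₂ (Nat.castRingHom (Fr S.V)) xx D ≠ 0 :=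
    (ABCT.PosF.eval₂ _ (fun h => ABCT.PosF.x _) _ hD).ne_zero
  have hfe' : f * eval₂ (Nat.castRingHom (Fr S.V)) xx D = eval₂ (Nat.castRingHom (Fr S.V)) xx N := by
    rw [hfe, div_mul_cancel₀ _ hDev]
  have hkey : P' * map (Nat.castRingHom ℂ) D = Q' * map (Nat.castRingHom ℂ) N := by
    apply IsFractionRing.injective (MvPolynomial S.V ℂ) (Fr S.V)
    rw [map_mul, map_mul, alg_map, alg_map, eP, eQ, ← hpq', ← hfe']
    ring
  obtain ⟨μ₀, hμ₀⟩ := support_nonempty.mpr hD
  have hc : P' * map (Nat.castRingHom ℂ) (weightedHomogeneousComponent (wt b)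
      (QuotientAddGroup.mk (zexp μ₀)) D) = Q' * map (Nat.castRingHom ℂ)
      (weightedHomogeneousComponent (wt b) (QuotientAddGroup.mk (zexp μ₀)) N) := by
    rw [← comp_map, ← comp_map, ← comp_mul_left (wt b) hP', ← comp_mul_left (wt b) hQ', hkey]
  have hDw := weightedHomogeneousComponent_isWeightedHomogeneous (w := wt b)
    (QuotientAddGroup.mk (zexp μ₀)) D
  have hNw := weightedHomogeneousComponent_isWeightedHomogeneous (w := wt b)
    (QuotientAddGroup.mk (zexp μ₀)) N
  have hD0 : weightedHomogeneousComponent (wt b) (QuotientAddGroup.mk (zexp μ₀)) D ≠ 0 := by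
    intro h0
    have h3 : coeff μ₀ (weightedHomogeneousComponent (wt b) (QuotientAddGroup.mk (zexp μ₀)) D) =
        coeff μ₀ D := by
      rw [coeff_weightedHomogeneousComponent, if_pos (weight_wt b μ₀)]
    rw [h0, coeff_zero] at h3
    exact mem_support_iff.mp hμ₀ h3.symm
  generalize weightedHomogeneousComponent (wt b) (QuotientAddGroup.mk (zexp μ₀)) D = Dc at *
  generalize weightedHomogeneousComponent (wt b) (QuotientAddGroup.mk (zexp μ₀)) N = Nc at *
  have hDc : eval₂ (Nat.castRingHom (Fr S.V)) xx Dc ≠ 0 :=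
    (ABCT.PosF.eval₂ _ (fun h => ABCT.PosF.x _) _ hD0).ne_zero
  have hfc : f * eval₂ (Nat.castRingHom (Fr S.V)) xx Dc =
      eval₂ (Nat.castRingHom (Fr S.V)) xx Nc := by
    have h3 := congrArg (algebraMap (MvPolynomial S.V ℂ) (Fr S.V)) hc
    rw [map_mul, map_mul, alg_map, alg_map, eP, eQ, ← hpq'] at h3
    apply mul_left_cancel₀ (mul_ne_zero (lmono_ne_zero _ xx_ne_zero (zexp (μ1 + μ2))) hq0)
    rw [← h3]
    ring
  obtain ⟨k1, hk1⟩ := nat_shift b Nc μ₀ hNw
  obtain ⟨k2, hk2⟩ := nat_shift b Dc μ₀ hDw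
  obtain ⟨A, hA⟩ := hk1 (k1 + k2) (le_add_of_nonneg_right zero_le)
  obtain ⟨B, hB⟩ := hk2 (k1 + k2) (le_add_of_nonneg_left zero_le)
  have hm0 : ∏ j, lmono (xx : S.V → Fr S.V) (b j) ^ (k1 + k2) j ≠ 0 :=
    Finset.prod_ne_zero_iff.mpr fun j _ => pow_ne_zero _ (lmono_ne_zero _ xx_ne_zero _)
  have hμ0 : lmono (xx : S.V → Fr S.V) (zexp μ₀) ≠ 0 := lmono_ne_zero _ xx_ne_zero _
  have hNc : eval₂ (Nat.castRingHom (Fr S.V)) xx Nc ≠ 0 := by
    rw [← hfc]; exact mul_ne_zero hf0 hDc
  have hA0 : evN (fun j => lmono (xx : S.V → Fr S.V) (b j)) A ≠ 0 := by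
    intro h; rw [h, mul_zero] at hA; exact mul_ne_zero hNc hm0 hA
  have hB0 : evN (fun j => lmono (xx : S.V → Fr S.V) (b j)) B ≠ 0 := by
    intro h; rw [h, mul_zero] at hB; exact mul_ne_zero hDc hm0 hB
  refine ⟨A, B, ?_, ?_, ?_⟩
  · rintro rfl
    exact hA0 (eval₂_zero _ _)
  · rintro rfl
    exact hB0 (eval₂_zero _ _)
  · rw [eq_div_iff hB0]
    apply mul_left_cancel₀ hμ0
    rw [← hA, ← hfc]
    calc _ = f * (lmono xx (zexp μ₀) * evN (fun j => lmono xx (b j)) B) := by ring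
      _ = _ := by rw [← hB]; ring

end PosGeom.H3
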