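import Pool.Agent.Helper93_ABCT.StmtI

/-!
# ABCT: evaluation of polynomials with natural coefficients, forms
-/

open MvPolynomial Topology

namespace PosGeom.H3

open PosGeom

/-- base change to complex coefficients -/
noncomputable def mC {σ : Type} (p : MvPolynomial σ ℕ) : MvPolynomial σ ℂ :=
  map (Nat.castRingHom ℂ) p

theorem aeval_mC {σ : Type} {R : Type} [CommRing R] [Algebra ℂ R] (x : σ → R)
    (p : MvPolynomial σ ℕ) : aeval x (mC p) = evN x p := by
  unfold mC evN
  rw [aeval_def, eval₂_map]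
  congr 1
  ext
  simp

theorem mC_hom {σ : Type} {p : MvPolynomial σ ℕ} {n : ℕ} (h : p.IsHomogeneous n) :
    (mC p).IsHomogeneous n := h.map _

theorem mC_ne {σ : Type} {p : MvPolynomial σ ℕ} (h : p ≠ 0) : mC p ≠ 0 := by
  intro h0
  exact h (map_injective (Nat.castRingHom ℂ) Nat.cast_injective (by rw [map_zero]; exact h0))

theorem evN_bind {σ τ : Type} {R : Type} [CommSemiring R] (x : τ → R) (L : σ → MvPolynomial τ ℕ)
    (p : MvPolynomial σ ℕ) : evN x (bind₁ L p) = evN (fun i => evN x (L i)) p := by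
  have := eval₂Hom_bind₁ (Nat.castRingHom R) x L p
  exact this

theorem form_scale {σ : Type} {R : Type} [CommRing R] [Algebra ℂ R] (F : MvPolynomial σ ℂ)
    (n : ℕ) (hF : F.IsHomogeneous n) (z : σ → R) (t : R) :
    aeval (fun i => t * z i) F = t ^ n * aeval z F := by
  classical
  rw [aeval_def, eval₂_eq, aeval_def, eval₂_eq, Finset.mul_sum]
  refine Finset.sum_congr rfl fun μ hμ => ?_
  have hm : ∑ i ∈ μ.support, μ i = n := by
    have := hF (mem_support_iff.mp hμ)
    rw [Finsupp.weight_apply, Finsupp.sum] at this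
    simpa using this
  have h2 : (∏ i ∈ μ.support, (t * z i) ^ μ i) = t ^ n * ∏ i ∈ μ.support, z i ^ μ i := by
    rw [← hm, ← Finset.prod_pow_eq_pow_sum, ← Finset.prod_mul_distrib]
    exact Finset.prod_congr rfl fun i _ => mul_pow _ _ _
  rw [h2]
  ring

/-- coordinates of `Fd d` -/
theorem isCoord_yv (d : ℕ) : IsCoord (yv d) := by
  refine ⟨?_, ?_⟩
  · have h1 : AlgebraicIndependent ℂ (X : Fin d → MvPolynomial (Fin d) ℂ) :=
      algebraicIndependent_X (Fin d) ℂ
    exact h1.map' (f := Algebra.ofId _ _ |>.restrictScalars ℂ)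
      (IsFractionRing.injective (MvPolynomial (Fin d) ℂ) (Fd d))
  · rw [eq_top_iff]
    intro f _
    obtain ⟨p, q, _, rfl⟩ := IsFractionRing.div_surjective (A := MvPolynomial (Fin d) ℂ) f
    have key : ∀ p : MvPolynomial (Fin d) ℂ, algebraMap _ (Fd d) p ∈
        IntermediateField.adjoin ℂ (Set.range (yv d)) := by
      intro p
      induction p using MvPolynomial.induction_on with
      | C a =>
        have : algebraMap (MvPolynomial (Fin d) ℂ) (Fd d) (C a) = algebraMap ℂ (Fd d) a := by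
          rw [IsScalarTower.algebraMap_apply ℂ (MvPolynomial (Fin d) ℂ) (Fd d)]
          rfl
        rw [this]
        exact IntermediateField.algebraMap_mem _ _
      | add p q hp hq => rw [map_add]; exact add_mem hp hq
      | mul_X p i hp =>
        rw [map_mul]
        exact mul_mem hp (IntermediateField.subset_adjoin ℂ _ ⟨i, rfl⟩)
    exact div_mem (key p) (key q)

theorem evN_yv {d : ℕ} (p : MvPolynomial (Fin d) ℕ) :
    evN (yv d) p = algebraMap (MvPolynomial (Fin d) ℂ) (Fd d) (mC p) := by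
  rw [← aeval_mC]
  have h := aeval_algebraMap_apply (Fd d) (X : Fin d → MvPolynomial (Fin d) ℂ) (mC p)
  rw [aeval_X_left_apply] at h
  exact h

theorem evN_yv_ne {d : ℕ} {p : MvPolynomial (Fin d) ℕ} (h : p ≠ 0) : evN (yv d) p ≠ 0 := by
  rw [evN_yv]
  intro h0
  exact mC_ne h ((IsFractionRing.injective (MvPolynomial (Fin d) ℂ) (Fd d)) (by rw [h0, map_zero]))

theorem posF_ne {d : ℕ} {f : Fd d} (h : PosF f) : f ≠ 0 := by
  obtain ⟨N, D, hN, hD, rfl⟩ := h
  exact div_ne_zero (evN_yv_ne hN) (evN_yv_ne hD)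

/-- evaluation at positive naturals of a nonzero polynomial with natural coefficients -/
theorem eval_pos {σ : Type} {p : MvPolynomial σ ℕ} (x : σ → ℕ)
    (h : ∃ μ ∈ p.support, ∀ i ∈ μ.support, 0 < x i) : 0 < eval x p := by
  classical
  obtain ⟨μ, hμ, hx⟩ := h
  rw [eval_eq]
  refine lt_of_lt_of_le ?_ (Finset.single_le_sum (f := fun d => coeff d p * ∏ i ∈ d.support, x i ^ d i)
    (fun _ _ => Nat.zero_le _) hμ)
  exact Nat.mul_pos (Nat.pos_of_ne_zero (mem_support_iff.1 hμ))
    (Finset.prod_pos fun i hi => Nat.pow_pos (hx i hi))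

theorem bind_ne {σ τ : Type} (L : σ → MvPolynomial τ ℕ) (Q : MvPolynomial σ ℕ)
    (h : RestNZ {i | L i ≠ 0} Q) : bind₁ L Q ≠ 0 := by
  classical
  intro h0
  have h1 : evN (fun _ : τ => (1 : ℕ)) (bind₁ L Q) = 0 := by rw [h0]; simp [evN]
  rw [evN_bind] at h1
  have h2 : evN (fun i => evN (fun _ : τ => (1 : ℕ)) (L i)) Q =
      eval (fun i => evN (fun _ : τ => (1 : ℕ)) (L i)) Q := by
    unfold evN
    rfl
  rw [h2] at h1
  obtain ⟨μ, hμ, hM⟩ := h
  have h3 : ∀ i, L i ≠ 0 → 0 < evN (fun _ : τ => (1 : ℕ)) (L i) := by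
    intro i hi
    obtain ⟨ν, hν⟩ := ne_zero_iff.1 hi
    exact eval_pos (fun _ : τ => (1 : ℕ)) ⟨ν, mem_support_iff.2 hν, fun _ _ => Nat.one_pos⟩
  have h4 := eval_pos (p := Q) (fun i => evN (fun _ : τ => (1 : ℕ)) (L i))
    ⟨μ, hμ, fun i hi => h3 i (hM i hi)⟩
  omega

end PosGeom.H3
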