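import Pool.Agent.Helper3_ABCT.Coord
import Pool.Agent.Helper3_ABCT.Evn

/-!
# ABCT: NADA (adapted coordinates from facet data)
-/

open MvPolynomial Topology

namespace PosGeom.H3

open PosGeom

variable {ι : Type} [Fintype ι] {d : ℕ}

theorem gen_zero_iff (hG : SgenStmt) (V : PVar ι) (F : MvPolynomial ι ℂ) :
    aeval V.gen F = 0 ↔ F ∈ V.I := (hG ι V).1 F

theorem lf_gen_iff (hG : SgenStmt) (hC : CfldStmt) (N : NCell ι d) (hN : N.Good)
    (F : MvPolynomial ι ℂ) (n : ℕ) (hF : F.IsHomogeneous n) :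
    aeval N.LF F = 0 ↔ aeval N.var.gen F = 0 := by
  rw [gen_zero_iff hG]
  exact (hC ι d N hN).2.2.2 F n hF

theorem form_iff (hG : SgenStmt) (hC : CfldStmt) (N : NCell ι d) (hN : N.Good)
    (e : N.var.K ≃ₐ[ℂ] Fd d) (he : N.IsE e) (n : ℕ) (F G : MvPolynomial ι ℂ)
    (hF : F.IsHomogeneous n) (hGn : G.IsHomogeneous n) (f : N.var.K) :
    e f * aeval N.LF G = aeval N.LF F ↔
      (f : N.var.Frac) * aeval N.var.gen G = aeval N.var.gen F := by
  obtain ⟨n', F', G', hF', hG', hne, h1, h2⟩ := (he f (e f)).2 rfl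
  have hne' : aeval N.var.gen G' ≠ 0 := fun h0 =>
    hne ((lf_gen_iff hG hC N hN G' n' hG').2 h0)
  have hH : (F' * G - G' * F).IsHomogeneous (n' + n) := (hF'.mul hGn).sub (hG'.mul hF)
  have hiff := lf_gen_iff hG hC N hN _ _ hH
  rw [map_sub, map_mul, map_mul, map_sub, map_mul, map_mul, ← h1, ← h2] at hiff
  constructor
  · intro h
    have h3 : e f * aeval N.LF G' * aeval N.LF G - aeval N.LF G' * aeval N.LF F = 0 := by
      rw [← h]; ring
    have h4 := hiff.1 h3
    apply mul_left_cancel₀ hne'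
    linear_combination h4
  · intro h
    have h3 : (f : N.var.Frac) * aeval N.var.gen G' * aeval N.var.gen G -
        aeval N.var.gen G' * aeval N.var.gen F = 0 := by
      rw [← h]; ring
    have h4 := hiff.2 h3
    apply mul_left_cancel₀ hne
    linear_combination h4

theorem nada (hG : SgenStmt) (hC : CfldStmt) : NadaStmt := by
  intro ι _ d N N' A L'' m h κ a hN hN' hfac e e' he he'
  classical
  obtain ⟨hdet, heq, hκ, hh, hres, htri1, htri2, hreg, hsub⟩ := hfac
  have hκ0 : κ ≠ 0 := posF_ne hκ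
  have hh0 : ∀ j, h j ≠ 0 := fun j => posF_ne (hh j)
  have hyc : IsCoord (yv (d + 1)) := isCoord_yv (d + 1)
  have hy0 : ∀ j, yv (d + 1) j ≠ 0 := fun j => hyc.ind.ne_zero j
  -- the monomial coordinates
  set y'' : Fin (d + 1) → Fd (d + 1) := fun k => ∏ j, yv (d + 1) j ^ A k j with hy''
  have hy''c : IsCoord y'' := isCoord_monomial hyc A hdet
  set u : Fd (d + 1) := ∏ j, yv (d + 1) j ^ m j with hu
  have hu0 : u ≠ 0 := Finset.prod_ne_zero_iff.2 fun j _ => zpow_ne_zero _ (hy0 j)
  have hLF : N.LF = fun i => u * evN y'' (L'' i) := by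
    funext i
    exact heq i
  -- the point of the facet in the new coordinates
  set Y : Fin (d + 1) → Fd d := Fin.cons 0 (fun j => yv d j * h j) with hY
  have hLF' : (fun i => evN Y (L'' i)) = fun i => κ * N'.LF i := by
    funext i
    exact hres i
  -- transfer of relations
  have htrans : ∀ p : MvPolynomial (Fin (d + 1)) ℂ, aeval y'' p = 0 → aeval Y p = 0 := by
    intro p hp
    have : p = 0 := (algebraicIndependent_iff.1 hy''c.ind) p hp
    rw [this, map_zero]
  -- evaluation of forms
  have hform : ∀ (F : MvPolynomial ι ℂ) (n : ℕ), F.IsHomogeneous n →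
      aeval N.LF F = u ^ n * aeval y'' (bind₁ (fun i => mC (L'' i)) F) ∧
      aeval Y (bind₁ (fun i => mC (L'' i)) F) = κ ^ n * aeval N'.LF F := by
    intro F n hF
    constructor
    · rw [aeval_bind₁, hLF, form_scale F n hF]
      congr 3
      funext i
      exact (aeval_mC _ _).symm
    · rw [aeval_bind₁]
      have h1 : (fun i => aeval Y (mC (L'' i))) = fun i => κ * N'.LF i := by
        rw [← hLF']
        funext i
        exact aeval_mC _ _
      rw [h1, form_scale F n hF]
  have hvan : ∀ (F : MvPolynomial ι ℂ) (n : ℕ), F.IsHomogeneous n → aeval N.LF F = 0 →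
      aeval N'.LF F = 0 := by
    intro F n hF h0
    obtain ⟨h1, h2⟩ := hform F n hF
    rw [h1] at h0
    have h3 := (mul_eq_zero.1 h0).resolve_left (pow_ne_zero _ hu0)
    have h4 := htrans _ h3
    rw [h2] at h4
    exact (mul_eq_zero.1 h4).resolve_left (pow_ne_zero _ hκ0)
  -- the inclusion of varieties
  have hI : N.var.I ≤ N'.var.I := by
    intro F hF
    rw [← sum_homogeneousComponent F]
    refine Ideal.sum_mem _ fun n _ => ?_
    have h1 := N.var.homog F hF n
    have hn := homogeneousComponent_isHomogeneous n F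
    rw [← (hC ι d N' hN').2.2.2 _ n hn]
    exact hvan _ n hn (((hC ι (d + 1) N hN).2.2.2 _ n hn).2 h1)
  -- values
  have hval : ∀ (k : Fin (d + 1)) (b : N'.var.K), e' b = Y k →
      N.var.SpecTo N'.var.gen (N.chA e A k) (b : N'.var.Frac) := by
    intro k b hb
    obtain ⟨n, P, Q, hP, hQ, hQne, hPQ⟩ := hreg k
    have hek : e (N.chA e A k) = y'' k := by
      unfold NCell.chA NCell.ch
      rw [map_prod]
      refine Finset.prod_congr rfl fun j _ => ?_
      rw [map_zpow₀, AlgEquiv.apply_symm_apply]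
    have hQ0 : aeval N'.LF (mC Q) ≠ 0 := by
      rw [aeval_mC]
      have h1 : evN N'.LF Q = evN (yv d) (bind₁ N'.L Q) := (evN_bind _ _ _).symm
      rw [h1]
      exact evN_yv_ne (bind_ne _ _ hQne)
    refine ⟨n, mC P, mC Q, mC_hom hP, mC_hom hQ, ?_, ?_, ?_⟩
    · intro h0
      exact hQ0 ((lf_gen_iff hG hC N' hN' _ n (mC_hom hQ)).2 h0)
    · rw [← form_iff hG hC N hN e he n _ _ (mC_hom hP) (mC_hom hQ), hek, aeval_mC, aeval_mC,
        mul_comm]
      exact hPQ
    · rw [← form_iff hG hC N' hN' e' he' n _ _ (mC_hom hP) (mC_hom hQ), hb]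
      -- relation in the chart
      have h1 := (hform (mC P) n (mC_hom hP))
      have h2 := (hform (mC Q) n (mC_hom hQ))
      have h3 : aeval y'' (X k * bind₁ (fun i => mC (L'' i)) (mC Q) -
          bind₁ (fun i => mC (L'' i)) (mC P)) = 0 := by
        rw [map_sub, map_mul, aeval_X]
        have h4 : u ^ n * (y'' k * aeval y'' (bind₁ (fun i => mC (L'' i)) (mC Q)) -
            aeval y'' (bind₁ (fun i => mC (L'' i)) (mC P))) = 0 := by
          have h5 : aeval N.LF (mC Q) * y'' k = aeval N.LF (mC P) := by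
            rw [aeval_mC, aeval_mC]
            exact hPQ
          rw [h1.1, h2.1] at h5
          linear_combination h5
        exact (mul_eq_zero.1 h4).resolve_left (pow_ne_zero _ hu0)
      have h6 := htrans _ h3
      rw [map_sub, map_mul, aeval_X, h1.2, h2.2] at h6
      have h7 : κ ^ n * (Y k * aeval N'.LF (mC Q) - aeval N'.LF (mC P)) = 0 := by
        linear_combination h6
      have h8 := (mul_eq_zero.1 h7).resolve_left (pow_ne_zero _ hκ0)
      linear_combination h8
  refine ⟨hI, ?_, ?_, ?_, ?_⟩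
  · exact isCoord_monomial ((hC ι (d + 1) N hN).2.1 e he) A hdet
  · have h1 : IsCoord (fun j => yv d j * h j) := isCoord_twist (isCoord_yv d) h a hh0 htri1 htri2
    exact isCoord_equiv h1 e'.symm
  · have h1 := hval 0 0 (by rw [map_zero, hY, Fin.cons_zero])
    exact h1
  · intro j
    refine hval j.succ (N'.chT e' h j) ?_
    unfold NCell.chT
    rw [AlgEquiv.apply_symm_apply, hY, Fin.cons_succ]

end PosGeom.H3
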