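import Pool.Agent.Helper93_ABCT.StmtK
import Pool.Agent.Helper3_ABCT.Ader

/-!
# ABCT: UDER (logarithmic derivations, chain rule)
-/

open MvPolynomial

namespace PosGeom.H3

open PosGeom ABCT

/-- extension of a derivation from polynomials to rational functions -/
theorem exists_der_frac (σ : Type) (δ₀ : Derivation ℂ (MvPolynomial σ ℂ) (Fr σ)) :
    ∃ δ : Derivation ℂ (Fr σ) (Fr σ), ∀ P : MvPolynomial σ ℂ,
      δ (algebraMap _ (Fr σ) P) = δ₀ P := by
  have _ : Algebra.FormallyEtale (MvPolynomial σ ℂ) (Fr σ) :=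
    Algebra.FormallyEtale.of_isLocalization (nonZeroDivisors (MvPolynomial σ ℂ))
  have hB := KaehlerDifferential.isBaseChange_of_formallyEtale ℂ (MvPolynomial σ ℂ) (Fr σ)
  let ℓ : Ω[Fr σ⁄ℂ] →ₗ[Fr σ] Fr σ := hB.lift δ₀.liftKaehlerDifferential
  refine ⟨ℓ.compDer (KaehlerDifferential.D ℂ (Fr σ)), fun P => ?_⟩
  have h1 : (KaehlerDifferential.D ℂ (Fr σ)) (algebraMap _ (Fr σ) P) =
      KaehlerDifferential.map ℂ ℂ (MvPolynomial σ ℂ) (Fr σ)
        (KaehlerDifferential.D ℂ (MvPolynomial σ ℂ) P) := by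
    rw [KaehlerDifferential.map_D]
  change ℓ ((KaehlerDifferential.D ℂ (Fr σ)) (algebraMap _ (Fr σ) P)) = δ₀ P
  rw [h1, hB.lift_eq, Derivation.liftKaehlerDifferential_comp_D]

theorem uder : UderStmt := by
  classical
  refine ⟨fun σ v => ?_, ?_⟩
  · obtain ⟨δ, hδ⟩ := exists_der_frac σ
      ((Algebra.linearMap (MvPolynomial σ ℂ) (Fr σ)).compDer
        ((X v : MvPolynomial σ ℂ) • (pderiv v : Derivation ℂ (MvPolynomial σ ℂ) (MvPolynomial σ ℂ))))
    exact ⟨δ, fun P => by rw [hδ]; rfl⟩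
  · intro K L _ _ _ _ ε n y D hy hD δ f
    obtain ⟨P, Q, hQ, hPQ⟩ := exists_quot hy f
    have hQ0 : aeval y Q ≠ 0 := fun h => hQ ((algebraicIndependent_iff.1 hy.ind) Q h)
    have hεQ : ε (aeval y Q) ≠ 0 := by
      intro h
      exact hQ0 (ε.toRingHom.injective (by rw [map_zero]; exact h))
    have hpoly : ∀ R : MvPolynomial (Fin n) ℂ, δ (ε (aeval y R)) =
        ∑ i, δ (ε (y i)) * ε (D i (aeval y R)) := by
      intro R
      have h1 : ε (aeval y R) = aeval (fun i => ε (y i)) R := by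
        exact comp_aeval_apply (f := y) ε _
      rw [h1, deriv_aeval]
      refine Finset.sum_congr rfl fun i _ => ?_
      rw [dual_aeval hD]
      have h2 : ε (aeval y (pderiv i R)) = aeval (fun i => ε (y i)) (pderiv i R) := by
        exact comp_aeval_apply (f := y) ε _
      rw [h2]
      ring
    have hl : δ (ε f) * ε (aeval y Q) + ε f * δ (ε (aeval y Q)) = δ (ε (aeval y P)) := by
      rw [← hPQ, map_mul, Derivation.leibniz, smul_eq_mul, smul_eq_mul]
      ring
    have hr : (∑ i, δ (ε (y i)) * ε (D i f)) * ε (aeval y Q) + ε f * δ (ε (aeval y Q)) =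
        δ (ε (aeval y P)) := by
      rw [hpoly Q, hpoly P, Finset.sum_mul, Finset.mul_sum, ← Finset.sum_add_distrib]
      refine Finset.sum_congr rfl fun i _ => ?_
      have h3 : D i (f * aeval y Q) = D i (aeval y P) := by rw [hPQ]
      rw [Derivation.leibniz, smul_eq_mul, smul_eq_mul] at h3
      rw [← h3, map_add, map_mul, map_mul]
      ring
    have h4 : (δ (ε f) - ∑ i, δ (ε (y i)) * ε (D i f)) * ε (aeval y Q) = 0 := by
      linear_combination hl - hr
    rcases mul_eq_zero.mp h4 with h5 | h5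
    · exact sub_eq_zero.mp h5
    · exact absurd h5 hεQ

end PosGeom.H3
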