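import Pool.Agent.Helper93_ABCT.StmtI

/-!
# ABCT: generating families of the right size are coordinates
-/

open MvPolynomial Topology

namespace PosGeom.H3

open PosGeom Cardinal

theorem isAlgebraic_adjoin_of_top {K : Type} [Field K] [Algebra ℂ K] (S : Set K)
    (h : IntermediateField.adjoin ℂ S = ⊤) : Algebra.IsAlgebraic (Algebra.adjoin ℂ S) K := by
  have h1 : IsFractionRing (Algebra.adjoin ℂ S) K := by
    refine .of_field _ _ fun x => ?_
    have hx : x ∈ IntermediateField.adjoin ℂ S := by rw [h]; trivial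
    obtain ⟨a, ha, b, hb, e⟩ := IntermediateField.mem_adjoin_iff_div.mp hx
    exact ⟨⟨a, ha⟩, ⟨b, hb⟩, e⟩
  exact IsLocalization.isAlgebraic _ (nonZeroDivisors (Algebra.adjoin ℂ S))

theorem isCoord_of_adjoin {K : Type} [Field K] [Algebra ℂ K] {d : ℕ} {y z : Fin d → K}
    (hy : IsCoord y) (hz : IntermediateField.adjoin ℂ (Set.range z) = ⊤) : IsCoord z := by
  have h1 := isAlgebraic_adjoin_of_top _ hz
  have h2 : #(Fin d) ≤ Algebra.trdeg ℂ K := hy.ind.cardinalMk_le_trdeg
  exact ⟨(Algebra.IsAlgebraic.isTranscendenceBasis_of_le_trdeg_of_finite ℂ z h2).1, hz⟩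

/-- inverse monomial transformation -/
theorem monomial_inv {K : Type} [Field K] {d : ℕ} (y : Fin d → K) (hy : ∀ j, y j ≠ 0)
    (A : Matrix (Fin d) (Fin d) ℤ) (hA : A.det = 1 ∨ A.det = -1) (j : Fin d) :
    y j = ∏ k, (∏ l, y l ^ A k l) ^ (A⁻¹ j k) := by
  classical
  have hu : IsUnit A.det := by
    rcases hA with h | h <;> rw [h] <;> simp
  have h1 : A⁻¹ * A = 1 := Matrix.nonsing_inv_mul A hu
  have h2 : ∏ k, (∏ l, y l ^ A k l) ^ (A⁻¹ j k) = ∏ l, y l ^ ((A⁻¹ * A) j l) := by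
    calc ∏ k, (∏ l, y l ^ A k l) ^ (A⁻¹ j k) = ∏ k, ∏ l, y l ^ (A⁻¹ j k * A k l) := by
          refine Finset.prod_congr rfl fun k _ => ?_
          rw [← Finset.prod_zpow]
          refine Finset.prod_congr rfl fun l _ => ?_
          rw [← zpow_mul, mul_comm]
      _ = ∏ l, ∏ k, y l ^ (A⁻¹ j k * A k l) := Finset.prod_comm
      _ = ∏ l, y l ^ ((A⁻¹ * A) j l) := by
          refine Finset.prod_congr rfl fun l _ => ?_
          rw [Matrix.mul_apply]
          have : ∀ s : Finset (Fin d), ∏ k ∈ s, y l ^ (A⁻¹ j k * A k l) =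
              y l ^ ∑ k ∈ s, A⁻¹ j k * A k l := by
            intro s
            induction s using Finset.induction_on with
            | empty => simp
            | insert a s ha ih =>
              rw [Finset.prod_insert ha, Finset.sum_insert ha, ih, zpow_add₀ (hy l)]
          exact this _
  rw [h2, h1, Finset.prod_eq_single j]
  · simp
  · intro l _ hl
    rw [Matrix.one_apply_ne (Ne.symm hl), zpow_zero]
  · simp

theorem isCoord_monomial {K : Type} [Field K] [Algebra ℂ K] {d : ℕ} {y : Fin d → K}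
    (hy : IsCoord y) (A : Matrix (Fin d) (Fin d) ℤ) (hA : A.det = 1 ∨ A.det = -1) :
    IsCoord (fun k => ∏ j, y j ^ A k j) := by
  refine isCoord_of_adjoin hy ?_
  rw [eq_top_iff, ← hy.gen, IntermediateField.adjoin_le_iff]
  rintro _ ⟨j, rfl⟩
  have hy0 : ∀ j, y j ≠ 0 := fun j => hy.ind.ne_zero j
  rw [monomial_inv y hy0 A hA j]
  refine prod_mem fun k _ => ?_
  have hk : (∏ l, y l ^ A k l) ∈
      IntermediateField.adjoin ℂ (Set.range fun k => ∏ j, y j ^ A k j) :=
    IntermediateField.subset_adjoin ℂ _ ⟨k, rfl⟩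
  exact zpow_mem hk _

theorem isCoord_twist {K : Type} [Field K] [Algebra ℂ K] {d : ℕ} {y : Fin d → K}
    (hy : IsCoord y) (h : Fin d → K) (a : ℕ) (h0 : ∀ j, h j ≠ 0)
    (h1 : ∀ j : Fin d, (j : ℕ) < a → h j = 1)
    (h2 : ∀ j, h j ∈ IntermediateField.adjoin ℂ {f | ∃ i : Fin d, (i : ℕ) < a ∧ f = y i}) :
    IsCoord (fun j => y j * h j) := by
  refine isCoord_of_adjoin hy ?_
  rw [eq_top_iff, ← hy.gen, IntermediateField.adjoin_le_iff]
  rintro _ ⟨j, rfl⟩
  have hle : IntermediateField.adjoin ℂ {f | ∃ i : Fin d, (i : ℕ) < a ∧ f = y i} ≤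
      IntermediateField.adjoin ℂ (Set.range fun j => y j * h j) := by
    rw [IntermediateField.adjoin_le_iff]
    rintro _ ⟨i, hi, rfl⟩
    refine IntermediateField.subset_adjoin ℂ _ ⟨i, ?_⟩
    simp [h1 i hi]
  have hj : h j ∈ IntermediateField.adjoin ℂ (Set.range fun j => y j * h j) := hle (h2 j)
  have hyj : y j * h j ∈ IntermediateField.adjoin ℂ (Set.range fun j => y j * h j) :=
    IntermediateField.subset_adjoin ℂ _ ⟨j, rfl⟩
  have := div_mem hyj hj
  rwa [mul_div_cancel_right₀ _ (h0 j)] at this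

/-- transport of coordinates -/
theorem isCoord_equiv {K L : Type} [Field K] [Algebra ℂ K] [Field L] [Algebra ℂ L] {d : ℕ}
    {y : Fin d → K} (hy : IsCoord y) (e : K ≃ₐ[ℂ] L) : IsCoord (fun j => e (y j)) := by
  refine ⟨?_, ?_⟩
  · exact hy.ind.map' (f := (e : K →ₐ[ℂ] L)) e.injective
  · have h1 : Set.range (fun j => e (y j)) = (e : K →ₐ[ℂ] L) '' Set.range y := by
      rw [← Set.range_comp]; rfl
    rw [h1, ← IntermediateField.adjoin_map, hy.gen, ← AlgHom.fieldRange_eq_map,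
      AlgHom.fieldRange_eq_top]
    exact e.surjective

end PosGeom.H3
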